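import Pool.Agent.Helper33.Iso.Goals

set_option autoImplicit false

open Topology
open Pool.Agent.Helper72.Orb

namespace Pool.Agent.Helper4.Iso

universe u w

theorem gPATHCONN : Pool.Agent.Helper33.Iso.PATHCONN.{u, w} := by
  intro H _ _ V _ _ _ _ n y hrank
  have hfin : (Set.range fun a : H × Fin n => a.1 • y.1 a.2).Finite := Set.finite_range _
  have hr : 1 < Module.rank ℝ V := by
    rw [← Module.finrank_eq_rank]
    exact_mod_cast hrank
  have h1 : IsPathConnected (Set.range fun a : H × Fin n => a.1 • y.1 a.2)ᶜ :=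
    hfin.countable.isPathConnected_compl_of_one_lt_rank hr
  have h2 : {z : V | ∀ (i : Fin n) (h : H), z ≠ h • y.1 i} =
      (Set.range fun a : H × Fin n => a.1 • y.1 a.2)ᶜ := by
    ext z
    simp only [Set.mem_ofPred_eq, Set.mem_compl_iff, Set.mem_range, Prod.exists, not_exists]
    exact ⟨fun h a i e => h i a e.symm, fun h i a e => h a i e.symm⟩
  have h3 : IsPathConnected {z : V | ∀ (i : Fin n) (h : H), z ≠ h • y.1 i} := h2 ▸ h1
  exact isPathConnected_iff_pathConnectedSpace.1 h3

end Pool.Agent.Helper4.Iso
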