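import Pool.Agent.Helper33.Iso.Goals3

/-!
# Every group has a universal space

The space of all functions from the unit interval to the group; the distance of two functions is
the outer Lebesgue measure of the set where they differ. (The space is not Hausdorff, which does
not matter.) Two translates of a function differ everywhere, and a function is contracted to the
constant `1` by changing it on `[0, t)`.
-/

set_option autoImplicit false

open Topology unitInterval MeasureTheory
open Pool.Agent.Helper72.Orb

namespace Pool.Agent.Helper4.Iso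

universe u

/-- Functions from the half open unit interval to `H`. -/
structure Fn (H : Type u) where
  /-- the function -/
  val : Set.Ico (0 : ℝ) 1 → H

variable {H : Type u}

/-- The set where two functions differ. -/
def dset (f g : Fn H) : Set ℝ := Subtype.val '' {x | f.val x ≠ g.val x}

theorem mem_dset {f g : Fn H} {x : ℝ} :
    x ∈ dset f g ↔ ∃ h : x ∈ Set.Ico (0 : ℝ) 1, f.val ⟨x, h⟩ ≠ g.val ⟨x, h⟩ := by
  constructor
  · rintro ⟨⟨y, hy⟩, h1, rfl⟩
    exact ⟨hy, h1⟩
  · rintro ⟨h, h1⟩
    exact ⟨⟨x, h⟩, h1, rfl⟩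

noncomputable instance : PseudoEMetricSpace (Fn H) where
  edist f g := volume (dset f g)
  edist_self f := by
    have : dset f f = ∅ := by
      ext x
      simp [mem_dset]
    rw [this, measure_empty]
  edist_comm f g := by
    have : dset f g = dset g f := by
      ext x
      simp only [mem_dset, ne_comm]
    rw [this]
  edist_triangle f g k := by
    refine le_trans (measure_mono ?_) (measure_union_le (dset f g) (dset g k))
    intro x hx
    rw [mem_dset] at hx
    obtain ⟨h, h1⟩ := hx
    by_cases h2 : f.val ⟨x, h⟩ = g.val ⟨x, h⟩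
    · right
      rw [mem_dset]
      exact ⟨h, fun e => h1 (h2.trans e)⟩
    · left
      rw [mem_dset]
      exact ⟨h, h2⟩

theorem edist_def (f g : Fn H) : edist f g = volume (dset f g) := rfl

/-- The contraction. -/
noncomputable def contr [One H] (t : ℝ) (f : Fn H) : Fn H :=
  ⟨fun x => by classical exact if (x : ℝ) < t then 1 else f.val x⟩

theorem edist_contr [One H] (s t : ℝ) (f g : Fn H) :
    edist (contr s f) (contr t g) ≤ edist f g + ENNReal.ofReal |s - t| := by
  have h1 : dset (contr s f) (contr t g) ⊆ dset f g ∪ Set.uIcc s t := by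
    intro x hx
    rw [mem_dset] at hx
    obtain ⟨h, h1⟩ := hx
    by_contra hn
    rw [Set.mem_union, not_or, mem_dset, Set.mem_uIcc] at hn
    obtain ⟨h2, h3⟩ := hn
    have h4 : f.val ⟨x, h⟩ = g.val ⟨x, h⟩ := by
      by_contra h5
      exact h2 ⟨h, h5⟩
    apply h1
    simp only [contr]
    by_cases hs : x < s <;> by_cases ht : x < t
    · rw [if_pos hs, if_pos ht]
    · exact absurd (Or.inr ⟨not_lt.1 ht, hs.le⟩) h3
    · exact absurd (Or.inl ⟨not_lt.1 hs, ht.le⟩) h3
    · rw [if_neg hs, if_neg ht, h4]
  refine le_trans (measure_mono h1) (le_trans (measure_union_le _ _) ?_)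
  rw [edist_def, Real.volume_interval, abs_sub_comm]

variable [Group H]

instance : MulAction H (Fn H) where
  smul h f := ⟨fun x => h * f.val x⟩
  one_smul f := by
    obtain ⟨f⟩ := f
    change (⟨fun x => 1 * f x⟩ : Fn H) = ⟨f⟩
    simp
  mul_smul a b f := by
    change (⟨fun x => a * b * f.val x⟩ : Fn H) = ⟨fun x => a * (b * f.val x)⟩
    simp [mul_assoc]

theorem smul_val (h : H) (f : Fn H) (x : Set.Ico (0 : ℝ) 1) : (h • f).val x = h * f.val x := rfl

theorem edist_smul' (h : H) (f g : Fn H) : edist (h • f) (h • g) = edist f g := by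
  rw [edist_def, edist_def]
  congr 1
  ext x
  simp only [mem_dset, smul_val, ne_eq, mul_right_inj]

theorem isUniversal_fn : IsUniversalSpace H (Fn H) where
  contractible := by
    rw [contractible_iff_id_nullhomotopic]
    refine ⟨⟨fun _ => 1⟩, ⟨⟨⟨fun a => contr a.1 a.2, ?_⟩, ?_, ?_⟩⟩⟩
    · rw [continuous_iff_continuousAt]
      intro a
      rw [ContinuousAt, tendsto_iff_edist_tendsto_0]
      have h1 : Filter.Tendsto (fun b : I × Fn H => edist b.2 a.2 + ENNReal.ofReal |(b.1 : ℝ) - a.1|)
          (𝓝 a) (𝓝 (edist a.2 a.2 + ENNReal.ofReal |(a.1 : ℝ) - a.1|)) := by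
        apply Continuous.tendsto
        apply Continuous.add
        · exact continuous_snd.edist continuous_const
        · apply ENNReal.continuous_ofReal.comp
          exact ((continuous_subtype_val.comp continuous_fst).sub continuous_const).abs
      rw [edist_self, sub_self, abs_zero, ENNReal.ofReal_zero, add_zero] at h1
      exact tendsto_of_tendsto_of_tendsto_of_le_of_le tendsto_const_nhds h1
        (fun _ => zero_le) (fun b => edist_contr _ _ _ _)
    · rintro ⟨f⟩
      change contr ((0 : I) : ℝ) ⟨f⟩ = ⟨f⟩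
      simp only [contr, Set.Icc.coe_zero]
      congr 1
      funext x
      rw [if_neg (not_lt.2 x.2.1)]
    · rintro ⟨f⟩
      change contr ((1 : I) : ℝ) ⟨f⟩ = ⟨fun _ => 1⟩
      simp only [contr, Set.Icc.coe_one]
      congr 1
      funext x
      rw [if_pos x.2.2]
  continuous_smul h := by
    apply Isometry.continuous
    exact fun f g => edist_smul' h f g
  disjoint f := by
    refine ⟨Metric.eball f (1 / 2), Metric.eball_mem_nhds f (by simp), ?_⟩
    rintro h ⟨w, ⟨g, hg, rfl⟩, hw⟩
    rw [Metric.mem_eball, edist_def] at hg hw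
    have h1 : volume (dset g f ∪ dset (h • g) f) < 1 := by
      refine lt_of_le_of_lt (measure_union_le _ _) ?_
      have := ENNReal.add_lt_add hg hw
      rwa [ENNReal.add_halves] at this
    have h2 : ∃ x ∈ Set.Ico (0 : ℝ) 1, x ∉ dset g f ∪ dset (h • g) f := by
      by_contra hn
      push Not at hn
      have h3 : volume (Set.Ico (0 : ℝ) 1) ≤ volume (dset g f ∪ dset (h • g) f) :=
        measure_mono hn
      rw [Real.volume_Ico, sub_zero, ENNReal.ofReal_one] at h3
      exact absurd h1 (not_lt.2 h3)
    obtain ⟨x, hx, hx'⟩ := h2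
    rw [Set.mem_union, not_or, mem_dset, mem_dset] at hx'
    have h4 : g.val ⟨x, hx⟩ = f.val ⟨x, hx⟩ := by
      by_contra h5
      exact hx'.1 ⟨hx, h5⟩
    have h5 : (h • g).val ⟨x, hx⟩ = f.val ⟨x, hx⟩ := by
      by_contra h6
      exact hx'.2 ⟨hx, h6⟩
    rw [smul_val, ← h4] at h5
    exact mul_eq_right.1 h5

theorem gUNIV : Pool.Agent.Helper33.Iso.UNIV.{u} := fun H _ =>
  ⟨Fn H, inferInstance, inferInstance, isUniversal_fn⟩

end Pool.Agent.Helper4.Iso
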